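import Pool.Agent.Run7.h931.Bold

/-!
# MC_m implies Martin's conjecture for all Turing invariant functions up to parameters

`IsZF E`, `IsOmega E`, `MCm E` (in `Pool/Agent/Run7/h931/Model.lean` and
`Pool/Agent/Run7/h931/Deg.lean`) say that `(M, E)` is an ω-model of ZF which satisfies MC_m. Neither
choice nor determinacy is used.
-/

set_option autoImplicit false

namespace Pool.Agent.Results.MP_7d5779_lc.MartinWithParameter

open Run7.h931

universe u

theorem result (M : Type u) (E : M → M → Prop) (hZF : IsZF E) (hω : IsOmega E) (h : MCm E) :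
    -- part I
    (∀ f : Fn E, TInv f → ConstT f ∨
      ∃ c : Rl E, ∀ x : Rl E, Above c x → LeT x.1 (join (f.1 x).1 c.1)) ∧
    -- part II
    (∀ f g : Fn E, TInv f → TInv g →
      (∃ c : Rl E, ∀ x : Rl E, Above c x → LeT (g.1 x).1 (join (f.1 x).1 c.1)) ∨
      ∃ c : Rl E, ∀ x : Rl E, Above c x → LeT (jump (f.1 x).1) (join (g.1 x).1 c.1)) ∧
    -- well-foundedness
    (∀ F : ℕ → Fn E,
      (∃ s, FunR E (fun m n => Num E n m) (fun m (f : Fn E) => FnR E m f.1) s F) →
      (∀ n, TInv (F n)) → ∃ i j, i < j ∧ ∃ c : Rl E, ∀ x : Rl E, Above c x →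
        LeT ((F i).1 x).1 (join ((F j).1 x).1 c.1)) := by
  haveI : OM E := ⟨hZF, hω⟩
  exact ⟨fun f hf => one_param h hf, fun f g hf hg => two_param h.two hf hg,
    fun F hF hF' => wqo_param h F hF hF'⟩

end Pool.Agent.Results.MP_7d5779_lc.MartinWithParameter
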