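import Pool.Agent.Run7.h931.Two

/-!
# MC_m implies the second part of Martin's conjecture

`IsZF E`, `IsOmega E`, `DC E` (in `Pool/Agent/Run7/h931/Model.lean`) say that `(M, E)` is an ω-model of
ZF + DC. `MCm E` and `MC2 E` (in `Pool/Agent/Run7/h931/Deg.lean`) say that `(M, E)` satisfies MC_m and
the second part of Martin's conjecture.
-/

set_option autoImplicit false

namespace Pool.Agent.Results.MP_7d5779_lc.PartTwo

open Run7.h931

universe u

/-- Every ω-model of ZF + DC which satisfies MC_m satisfies the second part of Martin's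
conjecture. -/
theorem result (M : Type u) (E : M → M → Prop) (hZF : IsZF E) (hω : IsOmega E) (hDC : DC E)
    (h : MCm E) : MC2 E :=
  haveI : OM E := ⟨hZF, hω⟩
  mc2_of hDC h

end Pool.Agent.Results.MP_7d5779_lc.PartTwo
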