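import Pool.Agent.Run7.h931.One

/-!
# SC_m implies Steel's conjecture up to a parameter

`IsZF E`, `IsOmega E`, `DC E`, `AD E` (in `Pool/Agent/Run7/h931/Model.lean`) say that `(M, E)` is an
ω-model of ZF + DC + AD. `SCm E` (in `Pool/Agent/Run7/h931/Deg.lean`) says that it satisfies SC_m.

In such a model every Turing invariant function `f` is, after joining its values with a fixed real
`c`, equivalent on a cone to a uniformly Turing invariant function. If `f` is constant up to Turing
equivalence on a cone, or increasing on a cone, no parameter is needed.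
-/

set_option autoImplicit false

namespace Pool.Agent.Results.MP_7d5779_lc.SteelWithParameter

open Run7.h931

universe u

theorem result (M : Type u) (E : M → M → Prop) (hZF : IsZF E) (hω : IsOmega E) (hDC : DC E)
    (hAD : AD E) (h : SCm E) (f : Fn E) (hf : TInv f) :
    (∃ (c : Rl E) (g : Fn E), UTInv g ∧
      ∀ x : Rl E, Above c x → EqT (g.1 x).1 (join (f.1 x).1 c.1)) ∧
    (ConstT f ∨ Incr f → ∃ g : Fn E, UTInv g ∧ LeC f g ∧ LeC g f) := by
  haveI : OM E := ⟨hZF, hω⟩
  refine ⟨sc_param hDC hAD h hf, ?_⟩
  rintro (hc | hi)
  · exact sc_const hc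
  · exact sc_incr hDC hAD h hf hi

end Pool.Agent.Results.MP_7d5779_lc.SteelWithParameter
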