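import Pool.Agent.Run7.h931.Rest

/-!
# What remains of the question

`IsZF E`, `IsOmega E`, `DC E`, `AD E` (in `Pool/Agent/Run7/h931/Model.lean`) say that `(M, E)` is an
ω-model of ZF + DC + AD. `MCm E`, `SCm E`, `MC E`, `SC E`, `MC1 E` (in
`Pool/Agent/Run7/h931/Deg.lean`) say that it satisfies MC_m, SC_m, Martin's conjecture, Steel's
conjecture, the first part of Martin's conjecture. `PE E` (in `Pool/Agent/Run7/h931/One.lean`) says
that the real parameter can be eliminated in `x ≤_T f(x) ⊕ c`, and `Bad E f c` (in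
`Pool/Agent/Run7/h931/Rest.lean`) says that `f` is Turing invariant, `x ↦ f(x) ⊕ c` is uniformly
Turing invariant, and `x ≤_T f(x) ⊕ c` but `c ≰_T f(x)` for all `x`.
-/

set_option autoImplicit false

namespace Pool.Agent.Results.MP_7d5779_lc.WhatRemains

open Run7.h931

universe u

theorem result (M : Type u) (E : M → M → Prop) (hZF : IsZF E) (hω : IsOmega E) (hDC : DC E)
    (hAD : AD E) (h : MCm E) (h' : SCm E) :
    [MC E ∧ SC E, MC1 E, PE E, ¬ ∃ (f : Fn E) (c : Rl E), Bad E f c].TFAE := by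
  haveI : OM E := ⟨hZF, hω⟩
  tfae_have 1 ↔ 2 := all_iff hDC hAD h h'
  tfae_have 2 ↔ 3 := mc1_iff h
  tfae_have 2 ↔ 4 := ⟨no_bad_of_mc1, mc1_of_no_bad hDC hAD h h'⟩
  tfae_finish

end Pool.Agent.Results.MP_7d5779_lc.WhatRemains
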